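import Mathlib
import Pool.Agent.K7.H49.CX.Gold
import Pool.Agent.K7.H49.PR.Geo
import Pool.Agent.TH935.DF5

/-! Prime pairs in progressions with differences from families of nearly minimal additive energy: sets of
integers composed of given primes, sequences near convex functions, bilinear families of residues modulo a
prime (helper49). -/

set_option autoImplicit false

namespace Pool.Agent.K7.H49.PD

open Finset
open Pool.Agent.K7.H49.CX (enJ enJ_map)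
open Pool.Agent.W93.PP (GoodD)

/-- few exceptional differences in a family of small energy indexed by a finite set -/
theorem few (h A B C C₀ B₀ U W : ℕ) : ∃ N₀ : ℕ, ∀ N : ℕ, N₀ ≤ N →
    ∀ X : ℕ, N ≤ X → (N : ℝ) * Real.log X ^ (C + 6) ≤ X → (X : ℝ) ≤ N * Real.log X ^ W →
    ∀ (x : ℕ) (J : Finset ℕ) (t : ℕ → ℕ), J.card ≤ x → (∀ m ∈ J, t m ≤ B₀ * N) →
    (enJ h J (fun m => (t m : ℤ)) : ℝ) * N ≤ Real.log N ^ C₀ * (x : ℝ) ^ (2 * h) →
    ∀ T ⊆ J, (∀ m ∈ T, ¬ GoodD A B C X (t m)) → (T.card : ℝ) ≤ x / Real.log N ^ U := by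
  classical
  obtain ⟨N₀, hfam⟩ := Pool.Agent.TH935.DF.gd_fam h A B C U (C₀ + U * (2 * h)) B₀ W
  obtain ⟨n2, hn2⟩ := SM.ev_log 1
  refine ⟨max N₀ n2, fun N hN X hNX hX1 hX2 x J t hJx htN hE T hT hTb => ?_⟩
  have hL1 := hn2 N (le_trans (le_max_right _ _) hN)
  obtain ⟨L, hLd⟩ : ∃ L, L = Real.log (N : ℝ) := ⟨_, rfl⟩
  rw [← hLd] at hL1 hE ⊢
  have hL0 : 0 < L := by linarith
  have hJxr : (J.card : ℝ) ≤ x := by exact_mod_cast hJx
  have hTJ : (T.card : ℝ) ≤ J.card := by exact_mod_cast card_le_card hT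
  by_cases hsmall : (J.card : ℝ) ≤ x / L ^ U
  · exact hTJ.trans hsmall
  push Not at hsmall
  rw [div_lt_iff₀ (by positivity)] at hsmall
  obtain ⟨e, he1, he2, he3⟩ := SM.enum J
  have hen1 : Pool.Agent.H373R2.T7.energy h J.card (fun m => (t (e m) : ℤ)) ≤ enJ h J (fun m => (t m : ℤ)) := by
    have h1 : Pool.Agent.H373R2.T7.energy h J.card (fun m => (t (e m) : ℤ)) =
        enJ h (Icc 1 J.card) (fun m => (t (e m) : ℤ)) := rfl
    rw [h1]
    apply enJ_map h _ _ _ _ e 0 1 one_ne_zero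
    · intro m hm; exact he1 m hm
    · exact he2
    · intro m _; ring
  have hen2 : (Pool.Agent.H373R2.T7.energy h J.card (fun m => (t (e m) : ℤ)) : ℝ) * N ≤
      Real.log N ^ (C₀ + U * (2 * h)) * (J.card : ℝ) ^ (2 * h) := by
    rw [← hLd]
    calc _ ≤ (enJ h J (fun m => (t m : ℤ)) : ℝ) * N := by gcongr
      _ ≤ L ^ C₀ * (x : ℝ) ^ (2 * h) := hE
      _ ≤ L ^ C₀ * (J.card * L ^ U) ^ (2 * h) := by gcongr
      _ = _ := by rw [mul_pow, ← pow_mul, pow_add]; ring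
  have hfin := hfam N (le_trans (le_max_left _ _) hN) J.card (fun m => (t (e m) : ℤ)) (by
      intro m hm
      rw [Nat.abs_cast]
      exact_mod_cast htN _ (he1 m hm)) hen2 X hNX hX1 hX2
    ((Icc 1 J.card).filter (fun m => e m ∈ T)) (filter_subset _ _) (by
      intro m hm
      refine ⟨Int.natCast_nonneg _, ?_⟩
      rw [Int.toNat_natCast]
      exact hTb _ (mem_filter.1 hm).2)
  rw [← hLd] at hfin
  have hcardT : T.card ≤ ((Icc 1 J.card).filter (fun m => e m ∈ T)).card := by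
    apply card_le_card_of_surjOn e
    intro l hl
    obtain ⟨m, hm, hml⟩ := he3 l (hT hl)
    refine ⟨m, ?_, hml⟩
    rw [mem_coe, mem_filter]
    exact ⟨hm, by rw [hml]; exact hl⟩
  calc (T.card : ℝ) ≤ ((Icc 1 J.card).filter (fun m => e m ∈ T)).card := Nat.cast_le.2 hcardT
    _ ≤ J.card / L ^ U := hfin
    _ ≤ x / L ^ U := div_le_div_of_nonneg_right hJxr (by positivity)

/-- differences from sequences near convex or concave functions -/
theorem convex (A B C C₁ U W : ℕ) (η : ℝ) (hη : 0 < η) : ∃ N₀ : ℕ, ∀ N : ℕ, N₀ ≤ N →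
    ∀ X : ℕ, N ≤ X → (N : ℝ) * Real.log X ^ (C + 6) ≤ X → (X : ℝ) ≤ N * Real.log X ^ W →
    ∀ x : ℕ, (N : ℝ) ^ (1 / 2 + η) ≤ x → x ≤ N → ∀ (f : ℕ → ℝ) (t : ℕ → ℕ), (∀ m ∈ Icc 1 x, t m ≤ N) →
    CX.NearCx x f t (Real.log N ^ C₁) (N / ((x : ℝ) ^ 2 * Real.log N ^ C₁)) →
    ∀ T ⊆ Icc 1 x, (∀ m ∈ T, ¬ GoodD A B C X (t m)) → (T.card : ℝ) ≤ x / Real.log N ^ U := by
  classical
  obtain ⟨h, D, n1, hh, hparts⟩ := CX.parts C₁ (U + 1) η hη
  obtain ⟨n2, hfew⟩ := few h A B C D 1 (U + 1) W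
  obtain ⟨n3, hn3⟩ := SM.ev_log 3
  refine ⟨max n1 (max n2 n3), fun N hN X hNX hX1 hX2 x hx hxN f t htN hf T hT hTb => ?_⟩
  obtain ⟨J₁, hJ₁, J₂, hJ₂, h3, h4, h5⟩ := hparts N (le_trans (le_max_left _ _) hN) x hx hxN f t hf
  have hN2 : n2 ≤ N := le_trans (le_trans (le_max_left _ _) (le_max_right _ _)) hN
  have hL3 := hn3 N (le_trans (le_trans (le_max_right _ _) (le_max_right _ _)) hN)
  have hc : ∀ J ⊆ Icc 1 x, J.card ≤ x := by
    intro J hJ
    have := card_le_card hJ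
    rw [Nat.card_Icc] at this
    omega
  have a1 := hfew N hN2 X hNX hX1 hX2 x J₁ t (hc J₁ hJ₁) (fun m hm => by rw [one_mul]; exact htN m (hJ₁ hm)) h4
    (T ∩ J₁) inter_subset_right (fun m hm => hTb m (mem_inter.1 hm).1)
  have a2 := hfew N hN2 X hNX hX1 hX2 x J₂ t (hc J₂ hJ₂) (fun m hm => by rw [one_mul]; exact htN m (hJ₂ hm)) h5
    (T ∩ J₂) inter_subset_right (fun m hm => hTb m (mem_inter.1 hm).1)
  obtain ⟨L, hLd⟩ : ∃ L, L = Real.log (N : ℝ) := ⟨_, rfl⟩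
  rw [← hLd] at hL3 h3 a1 a2 ⊢
  have hL0 : 0 < L := by linarith
  have hsub : T ⊆ (T ∩ J₁) ∪ ((T ∩ J₂) ∪ (Icc 1 x).filter (fun m => m ∉ J₁ ∧ m ∉ J₂)) := by
    intro m hm
    rw [mem_union, mem_union, mem_inter, mem_inter, mem_filter]
    by_cases b1 : m ∈ J₁
    · exact Or.inl ⟨hm, b1⟩
    by_cases b2 : m ∈ J₂
    · exact Or.inr (Or.inl ⟨hm, b2⟩)
    exact Or.inr (Or.inr ⟨hT hm, b1, b2⟩)
  have hcard : (T.card : ℝ) ≤ (T ∩ J₁).card + ((T ∩ J₂).card + ((Icc 1 x).filter (fun m => m ∉ J₁ ∧ m ∉ J₂)).card) := by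
    exact_mod_cast (card_le_card hsub).trans ((card_union_le _ _).trans (Nat.add_le_add_left (card_union_le _ _) _))
  calc (T.card : ℝ) ≤ x / L ^ (U + 1) + (x / L ^ (U + 1) + x / L ^ (U + 1)) := by linarith
    _ = 3 * x / (L * L ^ U) := by rw [pow_succ]; ring
    _ ≤ L * x / (L * L ^ U) := by gcongr
    _ = x / L ^ U := mul_div_mul_left _ _ hL0.ne'

/-- differences from dilated and shifted copies of the set of the integers composed of given primes -/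
theorem composed (A B C C₁ U W : ℕ) (δ : ℝ) (hδ : 0 < δ) : ∃ N₀ : ℕ, ∀ N : ℕ, N₀ ≤ N →
    ∀ X : ℕ, N ≤ X → (N : ℝ) * Real.log X ^ (C + 6) ≤ X → (X : ℝ) ≤ N * Real.log X ^ W →
    ∀ y : ℕ, 2 ≤ y → (y : ℝ) ≤ Real.log N ^ C₁ →
    ∀ P : Finset ℕ, (∀ p ∈ P, p.Prime ∧ p ≤ y) → (y : ℝ) ^ (1 / 2 + δ) * Real.log N ≤ P.card →
    ∀ c κ : ℕ, 1 ≤ κ → c + κ * N ≤ C₁ * N →
    ∀ T ⊆ SM.S P N, (∀ l ∈ T, ¬ GoodD A B C X (c + κ * l)) → (T.card : ℝ) ≤ (SM.S P N).card / Real.log N ^ U := by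
  classical
  obtain ⟨h, D, n1, hh, hE⟩ := SM.energy_min C₁ δ hδ
  obtain ⟨n2, hfew⟩ := few h A B C D C₁ U W
  refine ⟨max n1 n2, fun N hN X hNX hX1 hX2 y hy hyC P hP hc c κ hκ hcκ T hT hTb => ?_⟩
  obtain ⟨e, he1, he2, he3⟩ := SM.enum (SM.S P N)
  have hEn := hE N (le_trans (le_max_left _ _) hN) y hy hyC P hP hc e he1 he2 he3
  have h1 := hfew N (le_trans (le_max_right _ _) hN) X hNX hX1 hX2 (SM.S P N).card (Icc 1 (SM.S P N).card)
    (fun m => c + κ * e m) (by rw [Nat.card_Icc]; omega) (fun m hm => by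
      have h2 : e m ≤ N := (SM.mem_S.1 (he1 m hm)).2.1
      exact (Nat.add_le_add_left (Nat.mul_le_mul_left _ h2) _).trans hcκ) (by
      have h2 : enJ h (Icc 1 (SM.S P N).card) (fun m => ((c + κ * e m : ℕ) : ℤ)) ≤
          enJ h (Icc 1 (SM.S P N).card) (fun m => (e m : ℤ)) := by
        apply enJ_map h _ _ _ _ (fun m => m) c κ (by exact_mod_cast (by omega : κ ≠ 0))
        · intro m hm; exact hm
        · intro m _ n _ h; exact h
        · intro m _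
          push_cast
          ring
      have h3 := CX.energy_eq_enJ h (SM.S P N).card e
      rw [← h3] at h2
      have h4 : (enJ h (Icc 1 (SM.S P N).card) (fun m => ((c + κ * e m : ℕ) : ℤ)) : ℝ) ≤
          Pool.Agent.H560R3.GB.energy h (SM.S P N).card e := by exact_mod_cast h2
      calc _ ≤ (Pool.Agent.H560R3.GB.energy h (SM.S P N).card e : ℝ) * N := by gcongr
        _ = N * Pool.Agent.H560R3.GB.energy h (SM.S P N).card e := mul_comm _ _
        _ ≤ _ := hEn)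
    ((Icc 1 (SM.S P N).card).filter (fun m => e m ∈ T)) (filter_subset _ _) (fun m hm => hTb _ (mem_filter.1 hm).2)
  refine le_trans ?_ h1
  apply Nat.cast_le.2
  apply card_le_card_of_surjOn e
  intro l hl
  obtain ⟨m, hm, hml⟩ := he3 l (hT hl)
  refine ⟨m, ?_, hml⟩
  rw [mem_coe, mem_filter]
  exact ⟨hm, by rw [hml]; exact hl⟩

/-- differences from dilated and shifted pseudorandom families -/
theorem pseudo (A B C C₁ U W : ℕ) (δ : ℝ) (hδ : 0 < δ) : ∃ q₀ : ℕ, ∀ q : ℕ, q₀ ≤ q →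
    ∀ X : ℕ, q ≤ X → (q : ℝ) * Real.log X ^ (C + 6) ≤ X → (X : ℝ) ≤ q * Real.log X ^ W →
    ∀ (α : Type) (T : Finset α) (t : α → ℕ), (∀ a ∈ T, t a ≤ q) →
    (∀ k : ℕ, 1 ≤ k → k < q → ‖∑ a ∈ T, Pool.Agent.H807R2.Dav.ee ((k : ℝ) * ((t a : ℝ) / q))‖ ≤ T.card * (q : ℝ) ^ (-δ)) →
    ∀ c κ : ℕ, 1 ≤ κ → c + κ * q ≤ C₁ * q →
    ∀ E ⊆ T, (∀ a ∈ E, ¬ GoodD A B C X (c + κ * t a)) → (E.card : ℝ) ≤ T.card / Real.log q ^ U := by
  classical
  obtain ⟨h, hh, hen⟩ := PR.en_delta δ hδ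
  obtain ⟨n1, hfew⟩ := few h A B C 1 C₁ U W
  obtain ⟨n2, hn2⟩ := SM.ev_log 2
  refine ⟨max (max n1 n2) 1, fun q hq X hqX hX1 hX2 α T t ht hsup c κ hκ hcκ E hE hEb => ?_⟩
  have hqn1 : n1 ≤ q := le_trans (le_trans (le_max_left _ _) (le_max_left _ _)) hq
  have hL2 := hn2 q (le_trans (le_trans (le_max_right _ _) (le_max_left _ _)) hq)
  have hq1 : 1 ≤ q := le_trans (le_max_right _ _) hq
  rcases T.eq_empty_or_nonempty with hT | ⟨a₀, ha₀⟩
  · have hE0 : E = ∅ := by rw [hT] at hE; exact subset_empty.1 hE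
    rw [hE0, hT]
    simp
  obtain ⟨e, he1, he2, he3⟩ := PR.enumA T a₀
  have h1 := hen α T t q hq1 hsup e he1 he2 he3
  have hfin := hfew q hqn1 X hqX hX1 hX2 T.card (Icc 1 T.card) (fun m => c + κ * t (e m))
    (by rw [Nat.card_Icc]; omega) (fun m hm => by
      have h2 : t (e m) ≤ q := ht _ (he1 m hm)
      exact (Nat.add_le_add_left (Nat.mul_le_mul_left _ h2) _).trans hcκ) (by
      have h2 : enJ h (Icc 1 T.card) (fun m => ((c + κ * t (e m) : ℕ) : ℤ)) ≤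
          enJ h (Icc 1 T.card) (fun m => (t (e m) : ℤ)) := by
        apply enJ_map h _ _ _ _ (fun m => m) c κ (by exact_mod_cast (by omega : κ ≠ 0))
        · intro m hm; exact hm
        · intro m _ n _ h; exact h
        · intro m _
          push_cast
          ring
      have h3 := CX.energy_eq_enJ h T.card (fun m => t (e m))
      rw [← h3] at h2
      have h4 : (enJ h (Icc 1 T.card) (fun m => ((c + κ * t (e m) : ℕ) : ℤ)) : ℝ) ≤
          Pool.Agent.H560R3.GB.energy h T.card (fun m => t (e m)) := by exact_mod_cast h2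
      calc _ ≤ (Pool.Agent.H560R3.GB.energy h T.card (fun m => t (e m)) : ℝ) * q := by gcongr
        _ ≤ 2 * (T.card : ℝ) ^ (2 * h) := h1
        _ ≤ Real.log q ^ 1 * (T.card : ℝ) ^ (2 * h) := by
            rw [pow_one]
            gcongr)
    ((Icc 1 T.card).filter (fun m => e m ∈ E)) (filter_subset _ _) (fun m hm => hEb _ (mem_filter.1 hm).2)
  refine le_trans ?_ hfin
  apply Nat.cast_le.2
  apply card_le_card_of_surjOn e
  intro a ha
  obtain ⟨m, hm, hma⟩ := he3 a (hE ha)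
  refine ⟨m, ?_, hma⟩
  rw [mem_coe, mem_filter]
  exact ⟨hm, by rw [hma]; exact ha⟩

end Pool.Agent.K7.H49.PD
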